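import Pool.Agent.H58.FL.TargetsB

set_option autoImplicit false

noncomputable section

open Topology

namespace Pool.Agent.H57.FL.EVI

open Pool.Agent.H58.FL Pool.Agent.H59 Pool.Agent.H48.FR

theorem down_VS (n : ℕ) (δ : ℝ) : Down (VS n δ) := fun S hS T hT x hx y hy =>
  hS x (hT hx) y (hT hy)

theorem cl_ff (hRPM : T_RPM) (hSMC : T_SMC) (n : ℕ) : Cl2 (VS n (Real.pi / 4)) (ff n) := by
  intro S hS x hx y hy z hz w hw
  have h5 := (hRPM n).2.2.2.2
  have h1 := (hRPM n).1
  have h := hSMC _ (rp x) (rp y) (rp z) (rp w) (h1 x) (h1 y) (h1 z) (h1 w)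
    (h5 x y (hS x hx y hy)) (h5 x z (hS x hx z hz)) (h5 x w (hS x hx w hw))
    (h5 y z (hS y hy z hz)) (h5 y w (hS y hy w hw)) (h5 z w (hS z hz w hw))
  unfold mn at h
  unfold d2 ff
  rw [← h]
  ring

/-- the one-cochain -/
def th (n : ℕ) (x y : CPn n) : ℝ := (inner ℂ (rp x) (rp y)).arg / (2 * Real.pi)

/-- the integral cochain -/
def hh (n : ℕ) (x y z : CPn n) : ℝ := ff n x y z - d1 (th n) x y z

theorem hh_int (hINT : T_INT) (hRPM : T_RPM) (n : ℕ) (S : Set (CPn n))
    (hS : S ∈ VS n (Real.pi / 4)) (x y z : CPn n) (hx : x ∈ S) (hy : y ∈ S) (hz : z ∈ S) :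
    ∃ r : ℤ, hh n x y z = r := by
  have h5 := (hRPM n).2.2.2.2
  have hne : ∀ p ∈ S, ∀ q ∈ S, inner ℂ (rp p) (rp q) ≠ 0 := by
    intro p hp q hq h0
    have := h5 p q (hS p hp q hq)
    rw [h0] at this
    norm_num at this
  obtain ⟨k, hk⟩ := (hINT (EuclideanSpace ℂ (Fin (n + 1)))).2 (rp x) (rp y) (rp z)
    (hne x hx y hy) (hne y hy z hz) (hne x hx z hz)
  exact ⟨k, hk⟩

theorem PL_int (hINT : T_INT) (hRPM : T_RPM) (n : ℕ) (S : Set (CPn n))
    (hS : S ∈ VS n (Real.pi / 4)) (m : ℕ) : ∀ x : ℕ → CPn n, (∀ i, x i ∈ S) →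
    ∃ r : ℤ, PL (List.replicate m (hh n)) x = r := by
  induction m with
  | zero =>
    intro x _
    refine ⟨1, ?_⟩
    change (1 : ℝ) = ((1 : ℤ) : ℝ)
    rw [Int.cast_one]
  | succ m ih =>
    intro x hx
    obtain ⟨r, hr⟩ := hh_int hINT hRPM n S hS (x 0) (x 1) (x 2) (hx 0) (hx 1) (hx 2)
    obtain ⟨s, hs⟩ := ih (sh 2 x) (fun i => hx _)
    refine ⟨r * s, ?_⟩
    rw [List.replicate_succ]
    change hh n (x 0) (x 1) (x 2) * PL (List.replicate m (hh n)) (sh 2 x) = _
    rw [hr, hs]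
    push_cast
    rfl

theorem PL_split (hLOW : T_LOW) {X : Type} (L L' : List (X → X → X → ℝ))
    (g h e : X → X → X → ℝ) (hg : ∀ a b c, g a b c = h a b c + e a b c) (x : ℕ → X) :
    PL (L ++ g :: L') x = PL (L ++ h :: L') x + 1 * PL (L ++ e :: L') x := by
  have h1 := (hLOW X).2.2.2.2.2.2.2.2.2.2
  rw [h1, h1, h1]
  change PL L x * (g _ _ _ * PL L' _) = PL L x * (h _ _ _ * PL L' _) +
    1 * (PL L x * (e _ _ _ * PL L' _))
  rw [hg]
  ring

theorem pf_EVI (hLOW : T_LOW) (hEVL : T_EVL) (hZA : T_ZA) (hINT : T_INT) (hRPM : T_RPM)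
    (hSMC : T_SMC) : T_EVI := by
  intro n z hz hbz
  have hK := down_VS n (Real.pi / 4)
  have hcf := cl_ff hRPM hSMC n
  have hch : Cl2 (VS n (Real.pi / 4)) (hh n) := by
    intro S hS x hx y hy u hu w hw
    have h1 := hcf S hS x hx y hy u hu w hw
    have h2 := (hLOW (CPn n)).2.2.2.2.2.2.2.2.2.1 (th n) x y u w
    have h3 : d2 (hh n) x y u w = d2 (ff n) x y u w -
        d2 (fun a b c => d1 (th n) a b c) x y u w := by
      unfold d2 hh
      ring
    rw [h3, h1, h2, sub_zero]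
  have hstep : ∀ j, j ≤ n → ev (2 * n) (PL (List.replicate j (hh n) ++
      List.replicate (n - j) (ff n))) z = ev (2 * n) (PL (List.replicate n (ff n))) z := by
    intro j
    induction j with
    | zero => intro _; simp
    | succ j ih =>
      intro hj
      rw [← ih (by omega)]
      have e1 : n - j = (n - (j + 1)) + 1 := by omega
      rw [e1]
      have e2 : List.replicate (j + 1) (hh n) ++ List.replicate (n - (j + 1)) (ff n) =
          List.replicate j (hh n) ++ hh n :: List.replicate (n - (j + 1)) (ff n) := by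
        rw [List.replicate_succ', List.append_assoc]
        rfl
      rw [e2, List.replicate_succ]
      have h1 : (Pool.Agent.H58.FL.PL (List.replicate j (hh n) ++ ff n :: List.replicate (n - (j + 1)) (ff n)) :
          Coc (CPn n)) = fun x =>
          PL (List.replicate j (hh n) ++ hh n :: List.replicate (n - (j + 1)) (ff n)) x +
          1 * PL (List.replicate j (hh n) ++ d1 (th n) ::
            List.replicate (n - (j + 1)) (ff n)) x := by
        funext x
        refine PL_split hLOW _ _ _ _ _ (fun a b c => ?_) x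
        unfold hh
        ring
      rw [h1, (hEVL (CPn n) (2 * n)).2.2.1]
      have h2 := hZA (CPn n) (VS n (Real.pi / 4)) hK n (List.replicate j (hh n))
        (List.replicate (n - (j + 1)) (ff n)) (th n) (by
          rw [List.length_replicate, List.length_replicate]
          omega) (fun g hg => by rw [List.eq_of_mem_replicate hg]; exact hch)
        (fun g hg => by rw [List.eq_of_mem_replicate hg]; exact hcf) z hz hbz
      rw [h2]
      ring
  have h1 := hstep n le_rfl
  rw [Nat.sub_self, List.replicate_zero, List.append_nil] at h1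
  rw [← h1]
  refine (hEVL (CPn n) (2 * n)).2.2.2.2.2.1 _ _ (fun t ht => ?_)
  exact PL_int hINT hRPM n (Set.range t) (hz t ht) n (ex t) (fun i => ⟨_, rfl⟩)

end Pool.Agent.H57.FL.EVI

namespace Pool.Agent.H57.FL

open Pool.Agent.H58.FL Pool.Agent.H59 Pool.Agent.H48.FR

theorem pf_EVI (hLOW : T_LOW) (hEVL : T_EVL) (hZA : T_ZA) (hINT : T_INT) (hRPM : T_RPM)
    (hSMC : T_SMC) : T_EVI := EVI.pf_EVI hLOW hEVL hZA hINT hRPM hSMC

end Pool.Agent.H57.FL
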