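import Pool.Agent.H58.FL.TargetsB
import Pool.Agent.H99.FL.FUN

set_option autoImplicit false

noncomputable section

open Topology

namespace Pool.Agent.H57.FL

open Pool.Agent.H58.FL Pool.Agent.H59 Pool.Agent.H48.FR Pool.Agent.H99.FL

set_option maxHeartbeats 200000 in
theorem pf_FU2 (hEVL : T_EVL) (hTCC : T_TCC) (hTCD : T_TCD) (hPER : T_PER) (hMUL : T_MUL)
    (hCMK : T_CMK) (hCEL : T_CEL) (_hVTX : T_VTX) (hDST : T_DST) (hPRD : T_PRD) (hDEG : T_DEG)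
    (hTOT : T_TOT) : T_FU2 := by
  intro n δ hn hδ
  obtain ⟨K₀, hK₀⟩ := hDEG
  obtain ⟨N₁, hN₁⟩ := hTOT n
  obtain ⟨N₂, hN₂⟩ := hDST n δ hδ
  obtain ⟨K, hK1, hK2, hK3, hK4⟩ : ∃ K : ℕ, 1 ≤ K ∧ K₀ ≤ K ∧ N₁ ≤ 2 * K ∧ N₂ ≤ 2 * K :=
    ⟨1 + K₀ + N₁ + N₂, by omega, by omega, by omega, by omega⟩
  have hdg := hK₀ K hK2
  obtain ⟨N, hN⟩ : ∃ N : ℕ, N = 2 * K := ⟨_, rfl⟩
  rw [← hN] at hK3 hK4 hdg
  have hN1 : 1 ≤ N := by omega
  obtain ⟨hp1, hp2, hp3, hp4, -, -⟩ := hPER n N hN1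
  have cH := cont_gm hMUL hCMK n N
  have cHY := cont_gY hMUL hCMK n N
  obtain ⟨H, hHe⟩ : ∃ H : C(Fin (2 * n) → ℝ, CPn n), ∀ y, H y = gm n N y := ⟨⟨_, cH⟩, fun y => rfl⟩
  obtain ⟨HY, hHYe⟩ : ∃ HY : C(Fin (2 * n) → ℝ, Fin n → CPn 1), ∀ y, HY y = gY N y :=
    ⟨⟨_, cHY⟩, fun y => rfl⟩
  have hHf : (⇑H : (Fin (2 * n) → ℝ) → CPn n) = gm n N := funext hHe
  obtain ⟨C, hC⟩ := hTCD (CPn n) n N H (by rw [hHf]; exact hp3)
  have hf : (n.factorial : ℤ) ≠ 0 := by exact_mod_cast n.factorial_ne_zero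
  have hfR : (n.factorial : ℝ) ≠ 0 := by exact_mod_cast n.factorial_ne_zero
  refine ⟨N, H, C, hN1, hHe, hC, ?_, ?_, ?_⟩
  · -- the chain is a cycle
    have h1 : (n.factorial : ℤ) • bd ℤ (2 * n) (CPn n) C = 0 := by
      rw [← map_smul, hC]
      exact hTCC (CPn n) (2 * n) N H (by omega) (by rw [hHf]; exact hp2)
    refine Finsupp.ext fun σ => ?_
    have h2 := DFunLike.congr_fun h1 σ
    rw [Finsupp.smul_apply, smul_eq_mul, Finsupp.coe_zero, Pi.zero_apply] at h2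
    rw [Finsupp.coe_zero, Pi.zero_apply]
    exact (mul_eq_zero.1 h2).resolve_left hf
  · intro σ hσ
    have h1 : σ ∈ (ZZ (2 * n) N H).support := by
      rw [Finsupp.mem_support_iff] at hσ ⊢
      rw [← hC, Finsupp.smul_apply, smul_eq_mul]
      exact mul_ne_zero hf hσ
    obtain ⟨x, hx⟩ := (hCEL (CPn n) (2 * n) N H).2.2.1 σ h1
    intro a ha b hb
    obtain ⟨y, hy, rfl⟩ := hx ha
    obtain ⟨y', hy', rfl⟩ := hx hb
    rw [hHe, hHe]
    exact hN₂ N hK4 x y hy y' hy'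
  · -- the value
    have e3 : (n.factorial : ℝ) *
        ev (2 * n) (PL (List.replicate n (ff n))) (vx (2 * n + 1) C) =
        ev (2 * n) (PL (List.replicate n (ff n))) (vx (2 * n + 1) (ZZ (2 * n) N H)) := by
      have h := (hEVL (CPn n) (2 * n)).2.1 (PL (List.replicate n (ff n))) (n.factorial : ℤ)
        (vx (2 * n + 1) C)
      rw [← map_smul, hC] at h
      rw [h, Int.cast_natCast]
    have e4 := val_eq hEVL hCEL n N H HY (fun y => by rw [hHe, hHYe, hp4])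
    have e5 := hN₁ N hK3 HY hHYe
    obtain ⟨s, hs, e6⟩ := hPRD n N HY hHYe
    rw [e4, e5, e6] at e3
    have e7 := mul_left_cancel₀ hfR e3
    rw [e7]
    have hd : dg N ^ n = 1 ∨ dg N ^ n = -1 := by
      rcases hdg with h | h
      · left; rw [h, one_pow]
      · rw [h]
        exact neg_one_pow_eq_or ℝ n
    rcases hs with hs | hs <;> rcases hd with hd | hd <;> rw [hs, hd] <;> norm_num

end Pool.Agent.H57.FL
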