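import Pool.Agent.H58.FL.TargetsB

set_option autoImplicit false

noncomputable section

open Topology

namespace Pool.Agent.H57.FL

open Pool.Agent.H58.FL Pool.Agent.H59 Pool.Agent.H48.FR

theorem down_VS (n : ℕ) (δ : ℝ) : Down (VS n δ) := fun S hS T hT x hx y hy =>
  hS x (hT hx) y (hT hy)

theorem cl_ff (hRPM : T_RPM) (hSMC : T_SMC) (n : ℕ) : Cl2 (VS n (Real.pi / 4)) (ff n) := by
  intro S hS x hx y hy z hz w hw
  have h5 := (hRPM n).2.2.2.2
  have h1 := (hRPM n).1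
  have h := hSMC _ (rp x) (rp y) (rp z) (rp w) (h1 x) (h1 y) (h1 z) (h1 w)
    (h5 x y (hS x hx y hy)) (h5 x z (hS x hx z hz)) (h5 x w (hS x hx w hw))
    (h5 y z (hS y hy z hz)) (h5 y w (hS y hy w hw)) (h5 z w (hS z hz w hw))
  unfold mn at h
  unfold d2 ff
  rw [← h]
  ring

theorem on_vx {n m : ℕ} (K : Set (Set (CPn n))) (c : Ch ℤ m (CPn n))
    (h : ∀ σ ∈ c.support, Set.range (⇑σ ∘ vtx m) ∈ K) : On K (vx m c) := by
  classical
  intro t ht
  unfold vx at ht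
  have h1 : t ∈ (Finsupp.mapDomain (fun σ : Smp m (CPn n) => ⇑σ ∘ vtx m) c).support := ht
  have h2 := Finsupp.mapDomain_support h1
  rw [Finset.mem_image] at h2
  obtain ⟨σ, hσ, rfl⟩ := h2
  exact h σ hσ

theorem on_sml (hSML : T_SML) {n m : ℕ} (c : Ch ℤ m (CPn n)) (δ : ℝ) (hδ : 0 < δ) :
    ∃ k₀ : ℕ, ∀ k, k₀ ≤ k → On (VS n δ) (vx m (SdI m k c)) := by
  obtain ⟨k₀, hk₀⟩ := hSML (CPn n) (CPn n) (ContinuousMap.id _) m c δ hδ
  refine ⟨k₀, fun k hk => on_vx _ _ (fun σ hσ => ?_)⟩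
  rintro x ⟨i, rfl⟩ y ⟨i', rfl⟩
  exact hk₀ k hk σ hσ i i'

theorem fs_ex {X : Type} {k : ℕ} (t : Fin (k + 1) → X) : fs k (ex t) ⊆ Set.range t := by
  rintro x ⟨i, _, rfl⟩
  exact ⟨_, rfl⟩

theorem pf_GEN (hCPG : T_CPG) (hEVI : T_EVI) (hEVB : T_EVB) (hEVL : T_EVL) (hCPL : T_CPL)
    (hLOW : T_LOW) (hSML : T_SML) (hINV : T_INV) (hVTX : T_VTX) (hRPM : T_RPM)
    (hSMC : T_SMC) : T_GEN := by
  intro n hn C hC hCs hval z hz
  obtain ⟨g, hg, hgen⟩ := (hCPG n).2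
  have hg0 : bd ℤ (2 * n) (CPn n) g = 0 := hg
  obtain ⟨a, b, hab⟩ := hgen C hC
  obtain ⟨a', b', hab'⟩ := hgen z hz
  set L := List.replicate n (ff n) with hL
  have hLn : L.length = n := by rw [hL, List.length_replicate]
  have hcl : ∀ f ∈ L, Cl2 (VS n (Real.pi / 4)) f := by
    intro f hf
    rw [hL] at hf
    rw [List.eq_of_mem_replicate hf]
    exact cl_ff hRPM hSMC n
  have hpi : 0 < Real.pi / 4 := by positivity
  obtain ⟨k₁, hk₁⟩ := on_sml hSML g (Real.pi / 4) hpi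
  obtain ⟨k₂, hk₂⟩ := on_sml hSML b (Real.pi / 4) hpi
  set k := max k₁ k₂ with hk
  have hg1 := hk₁ k (le_max_left _ _)
  have hb1 := hk₂ k (le_max_right _ _)
  have hinv := hINV (CPn n) (VS n (Real.pi / 4)) (down_VS n _) n L hLn hcl C hC hCs k
  have hCe : C = a • g + bd ℤ (2 * n + 1) (CPn n) b := by
    rw [hab]
    abel
  have hev := hEVL (CPn n) (2 * n)
  -- the value on the boundary
  have hbd : ev (2 * n) (PL L) (vx (2 * n + 1) (SdI (2 * n + 1) k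
      (bd ℤ (2 * n + 1) (CPn n) b))) = 0 := by
    rw [← bd_SdI, ← (hVTX (CPn n) (CPn n) (2 * n + 1)).1]
    have hdep : Dep (2 * n) (PL L) := by
      have := (hLOW (CPn n)).2.2.2.2.2.2.2.2.1 L
      rwa [hLn] at this
    rw [hEVB (CPn n) (2 * n) (PL L) _ hdep]
    have h0 : ∀ t ∈ (vx (2 * n + 1 + 1) (SdI (2 * n + 1 + 1) k b)).support,
        dl (2 * n) (PL L) (ex t) = (fun _ => (0 : ℝ) : Coc (CPn n)) (ex t) := by
      intro t ht
      have h1 := hb1 t ht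
      have h2 := hCPL (CPn n) (VS n (Real.pi / 4)) (down_VS n _) L hcl (ex t) (by
        rw [hLn]
        exact down_VS n _ _ h1 _ (fs_ex t))
      rw [hLn] at h2
      exact h2
    refine ((hEVL (CPn n) (2 * n + 1)).2.2.2.2.1 _ (fun _ => (0 : ℝ) : Coc (CPn n)) _ h0).trans ?_
    unfold ev
    simp
  have hcyc : bdL (2 * n) (CPn n) (vx (2 * n + 1) (SdI (2 * n + 1) k g)) = 0 := by
    rw [(hVTX (CPn n) (CPn n) (2 * n)).1, bd_SdI, hg0, map_zero, map_zero]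
  obtain ⟨N, hN⟩ := hEVI n _ hg1 hcyc
  have hval2 : (a : ℝ) * N = ev (2 * n) (PL L) (vx (2 * n + 1) C) := by
    rw [← hinv]
    conv_rhs => rw [hCe]
    rw [map_add, map_add, hev.1, hbd, add_zero, map_zsmul, map_zsmul, hev.2.1, hN]
  have haN : a * N = 1 ∨ a * N = -1 := by
    rcases hval with h | h
    · left
      rw [h] at hval2
      exact_mod_cast hval2
    · right
      rw [h] at hval2
      exact_mod_cast hval2
  have ha : a * a = 1 := by
    have hu : IsUnit a := by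
      rcases haN with h | h
      · exact IsUnit.of_mul_eq_one _ h
      · refine IsUnit.of_mul_eq_one (-N) ?_
        rw [mul_neg, h, neg_neg]
    rcases Int.isUnit_iff.mp hu with h | h <;> rw [h] <;> norm_num
  refine ⟨a' * a, b' - (a' * a) • b, ?_⟩
  rw [map_sub, map_zsmul, hab', hab]
  have h3 : (a' * a) • (C - a • g) = (a' * a) • C - a' • g := by
    rw [smul_sub, smul_smul, mul_assoc, ha, mul_one]
  rw [h3]
  abel

end Pool.Agent.H57.FL
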