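import Pool.Agent.H58.FL.TargetsB
import Pool.Agent.H79.FL.KIL

set_option autoImplicit false

open Topology Set CategoryTheory CategoryTheory.Limits Simplicial

namespace Pool.Agent.H57.FL

open Pool.Agent.H58.FL Pool.Agent.H59 Pool.Agent.H48.FR Pool.Agent.H79.FL

noncomputable section

theorem kill_of_bdry {K L : ChainComplex (ModuleCat.{0} ℤ) ℕ} (F : K ⟶ L) (m : ℕ) (N : ℤ)
    (h : ∀ z : K.X (m + 1), (K.d (m + 1) m).hom z = 0 →
      ∃ b : L.X (m + 2), (L.d (m + 2) (m + 1)).hom b = N • (F.f (m + 1)).hom z) :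
    N • HomologicalComplex.homologyMap F (m + 1) = 0 := by
  rw [← cancel_epi (K.homologyπ (m + 1)), Preadditive.comp_zsmul,
    HomologicalComplex.homologyπ_naturality, comp_zero]
  apply ModuleCat.hom_ext
  apply LinearMap.ext
  intro c
  obtain ⟨b, hb⟩ := h ((K.iCycles (m + 1)).hom c) (by
    have := congrArg (fun f => f.hom c) (K.iCycles_d (m + 1) m)
    exact this)
  have key : N • (HomologicalComplex.cyclesMap F (m + 1)).hom c =
      (L.toCycles (m + 2) (m + 1)).hom b := by
    apply (ModuleCat.mono_iff_injective (L.iCycles (m + 1))).1 inferInstance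
    have h1 := congrArg (fun f => f.hom b) (L.toCycles_i (m + 2) (m + 1))
    have h2 := congrArg (fun f => f.hom c) (HomologicalComplex.cyclesMap_i F (m + 1))
    have h3 : (L.iCycles (m + 1)).hom (N • (HomologicalComplex.cyclesMap F (m + 1)).hom c) =
        N • (F.f (m + 1)).hom ((K.iCycles (m + 1)).hom c) := by
      rw [map_zsmul]
      exact congrArg (fun x => N • x) h2
    have h4 : (L.iCycles (m + 1)).hom ((L.toCycles (m + 2) (m + 1)).hom b) =
        (L.d (m + 2) (m + 1)).hom b := h1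
    exact h3.trans (hb.symm.trans h4.symm)
  have h5 := congrArg (fun f => f.hom b) (L.toCycles_comp_homologyπ (m + 2) (m + 1))
  have h6 : (L.homologyπ (m + 1)).hom ((L.toCycles (m + 2) (m + 1)).hom b) = 0 := h5
  rw [← key, map_zsmul] at h6
  exact h6

theorem pf_KIB : T_KIB := by
  intro Y Z _ _ f d N hK
  have h1 : N • HomologicalComplex.homologyMap (cm f) (d + 1) = 0 := by
    refine kill_of_bdry (cm f) d N (fun z hz => ?_)
    have hz' : bd ℤ (d + 1) Y ((toCh Y (d + 1)).hom z) = 0 := by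
      have h1 := toCh_comm Y d z
      rw [hz, map_zero] at h1
      exact h1.symm
    obtain ⟨b, hb⟩ := hK ((toCh Y (d + 1)).hom z) hz'
    refine ⟨ofCh Z (d + 2) b, ?_⟩
    have h2 := toCh_comm Z (d + 1) (ofCh Z (d + 2) b)
    rw [toCh_ofCh, hb] at h2
    have h3 := congrArg (ofCh Z (d + 1)) h2
    rw [ofCh_toCh, map_zsmul, ← cm_ofCh, ofCh_toCh] at h3
    exact h3
  exact h1

end

end Pool.Agent.H57.FL
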